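import Pool.Agent.Helper37.LFU.FOU1
import Pool.Agent.Helper45.LFU.UB

/-!
# MP_c307ca_nt, form UB: the Fourier bound with a shift
-/

set_option autoImplicit false

open Finset

namespace Pool.Agent.Helper45.LFU

open Pool.Agent.Helper98.Lang Pool.Agent.Helper73.LF Pool.Agent.Helper8.Lang
open Pool.Agent.Helper92.LFU Pool.Agent.Helper37.LFU
open Pool.Agent.Helper37.LF (ec_sum)

lemma box_boundB {m : ℕ} (M : ℕ) (θ : Fin m → ℝ) (γ : ℝ)
    (hθ : ∀ h : ℕ, 1 ≤ h → ∀ i, 0 < nd (h * θ i)) (j k : ℕ) (hjk : j ≠ k) :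
    ‖∑ a ∈ Fintype.piFinset (fun _ : Fin m => Icc 1 M),
      ec (((j : ℝ) - k) * (∑ i, (a i : ℝ) * θ i + γ))‖ ≤
        PM θ M (if j < k then k - j else j - k) := by
  have h1 : ∑ a ∈ Fintype.piFinset (fun _ : Fin m => Icc 1 M),
      ec (((j : ℝ) - k) * (∑ i, (a i : ℝ) * θ i + γ)) =
      (∑ a ∈ Fintype.piFinset (fun _ : Fin m => Icc 1 M),
        ec (((j : ℝ) - k) * ∑ i, (a i : ℝ) * θ i)) * ec (((j : ℝ) - k) * γ) := by
    rw [Finset.sum_mul]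
    refine Finset.sum_congr rfl fun a _ => ?_
    rw [← ec_add]
    congr 1
    ring
  rw [h1, norm_mul, norm_ec, mul_one]
  exact box_bound M θ hθ j k hjk

/-- the second moment over the box -/
lemma momentB {m : ℕ} (M T : ℕ) (θ : Fin m → ℝ) (γ : ℝ)
    (hθ : ∀ h : ℕ, 1 ≤ h → ∀ i, 0 < nd (h * θ i)) :
    ∑ a ∈ Fintype.piFinset (fun _ : Fin m => Icc 1 M),
      ‖DS T (∑ i, (a i : ℝ) * θ i + γ)‖ ^ 2 ≤
      T * ((M : ℝ) ^ m + 2 * ∑ h ∈ Ico 1 T, PM θ M h) := by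
  set B := Fintype.piFinset (fun _ : Fin m => Icc 1 M) with hB
  have hBcard : (B.card : ℝ) = (M : ℝ) ^ m := by
    rw [hB, Fintype.card_piFinset]
    simp
  have h1 : ∀ t : ℝ, ((‖DS T t‖ ^ 2 : ℝ) : ℂ) =
      ∑ j ∈ range T, ∑ k ∈ range T, ec (((j : ℝ) - k) * t) := by
    intro t
    push_cast
    rw [← Complex.mul_conj']
    unfold DS
    rw [map_sum, Finset.sum_mul_sum]
    refine Finset.sum_congr rfl fun j _ => Finset.sum_congr rfl fun k _ => ?_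
    rw [← ec_neg, ← ec_add]
    congr 1
    ring
  have h3 : ((∑ a ∈ B, ‖DS T (∑ i, (a i : ℝ) * θ i + γ)‖ ^ 2 : ℝ) : ℂ) =
      ∑ j ∈ range T, ∑ k ∈ range T, ∑ a ∈ B, ec (((j : ℝ) - k) * (∑ i, (a i : ℝ) * θ i + γ)) := by
    rw [Complex.ofReal_sum]
    simp_rw [h1]
    rw [Finset.sum_comm]
    refine Finset.sum_congr rfl fun j _ => ?_
    rw [Finset.sum_comm]
  have h0 : 0 ≤ ∑ a ∈ B, ‖DS T (∑ i, (a i : ℝ) * θ i + γ)‖ ^ 2 :=
    Finset.sum_nonneg fun _ _ => by positivity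
  rw [← abs_of_nonneg h0, ← Real.norm_eq_abs, ← Complex.norm_real, h3]
  refine (norm_sum_le _ _).trans ?_
  have h4 : ∀ j ∈ range T, ‖∑ k ∈ range T, ∑ a ∈ B, ec (((j : ℝ) - k) * (∑ i, (a i : ℝ) * θ i + γ))‖ ≤
      (M : ℝ) ^ m + 2 * ∑ h ∈ Ico 1 T, PM θ M h := by
    intro j hj
    rw [← Finset.add_sum_erase _ _ hj]
    refine (norm_add_le _ _).trans ?_
    apply add_le_add
    · refine (norm_sum_le _ _).trans ?_
      simp only [norm_ec, sum_const, nsmul_eq_mul, mul_one]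
      exact hBcard.le
    · refine (norm_sum_le _ _).trans ?_
      refine le_trans (Finset.sum_le_sum fun k hk => ?_) (row_bound M T θ j (mem_range.1 hj))
      rw [mem_erase] at hk
      exact box_boundB M θ γ hθ j k (Ne.symm hk.1)
  calc ∑ j ∈ range T, ‖∑ k ∈ range T, ∑ a ∈ B, ec (((j : ℝ) - k) * (∑ i, (a i : ℝ) * θ i + γ))‖
      ≤ ∑ j ∈ range T, ((M : ℝ) ^ m + 2 * ∑ h ∈ Ico 1 T, PM θ M h) :=
        Finset.sum_le_sum h4
    _ = T * ((M : ℝ) ^ m + 2 * ∑ h ∈ Ico 1 T, PM θ M h) := by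
        rw [Finset.sum_const, card_range, nsmul_eq_mul]

/-- the Fourier bound with a shift -/
theorem fou1B : GFou1B := by
  intro m M T θ γ hT hθ S hS
  have hpi := Real.pi_pos
  have hpi3 : 3 < Real.pi := Real.pi_gt_three
  have hpi4 : Real.pi < 3.15 := Real.pi_lt_d2
  have hpisq : Real.pi ^ 2 / 4 ≤ 3 := by nlinarith
  have hT0 : (0 : ℝ) < T := by exact_mod_cast hT
  set B := Fintype.piFinset (fun _ : Fin m => Icc 1 M) with hB
  have hSB : S ⊆ B := by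
    intro a ha
    rw [hB, Fintype.mem_piFinset]
    intro i
    rw [mem_Icc]
    exact (hS a ha).1 i
  have hM := momentB M T θ γ hθ
  have h1 : (S.card : ℝ) ≤ Real.pi ^ 2 / (4 * T ^ 2) *
      ∑ a ∈ B, ‖DS T (∑ i, (a i : ℝ) * θ i + γ)‖ ^ 2 := by
    rw [Finset.mul_sum]
    calc (S.card : ℝ) = ∑ a ∈ S, (1 : ℝ) := by simp
      _ ≤ ∑ a ∈ S, Real.pi ^ 2 / (4 * (T : ℝ) ^ 2) * ‖DS T (∑ i, (a i : ℝ) * θ i + γ)‖ ^ 2 := by
          refine Finset.sum_le_sum fun a ha => ?_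
          have h2 := DS_ge T hT _ (hS a ha).2
          calc (1 : ℝ) = Real.pi ^ 2 / (4 * T ^ 2) * (2 * T / Real.pi) ^ 2 := by
                field_simp; norm_num
            _ ≤ Real.pi ^ 2 / (4 * T ^ 2) * ‖DS T (∑ i, (a i : ℝ) * θ i + γ)‖ ^ 2 := by gcongr
      _ ≤ _ := Finset.sum_le_sum_of_subset_of_nonneg hSB fun _ _ _ => by positivity
  have hR : 0 ≤ (M : ℝ) ^ m + 2 * ∑ h ∈ Ico 1 T, PM θ M h := by
    have : 0 ≤ ∑ h ∈ Ico 1 T, PM θ M h := Finset.sum_nonneg fun h _ => PM_nonneg θ M h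
    positivity
  calc (S.card : ℝ) ≤ Real.pi ^ 2 / (4 * T ^ 2) *
        (T * ((M : ℝ) ^ m + 2 * ∑ h ∈ Ico 1 T, PM θ M h)) :=
        h1.trans (by gcongr)
    _ = (Real.pi ^ 2 / 4) / T * ((M : ℝ) ^ m + 2 * ∑ h ∈ Ico 1 T, PM θ M h) := by
        field_simp
    _ ≤ 3 / T * ((M : ℝ) ^ m + 2 * ∑ h ∈ Ico 1 T, PM θ M h) := by gcongr

end Pool.Agent.Helper45.LFU
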